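import Pool.Agent.H50.Perturb

/-!
# The first part of the conjecture on `k`-equilateral polygons is true

We use `IsKEquilateral` and `Spans` from `Pool.Agent.H50.KEquilateral`.
-/

namespace Pool.Agent.Results.MP_fb0157_co.FirstPartHolds

open Pool.Agent.H50.KEquilateral

section General

variable {n : ℕ} [NeZero n] {d : ℕ}

omit [NeZero n] in
theorem card_freq (f : Fin d → ZMod n) (hf0 : ∀ a, f a ≠ 0) (hff : Function.Injective f)
    (hfn : ∀ a b, -f a ≠ f b) : (freq f).card = 2 * d + 1 := by
  classical
  rw [freq, Finset.card_insert_of_notMem, Finset.card_union_of_disjoint,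
    Finset.card_image_of_injective _ hff, Finset.card_image_of_injective, Finset.card_univ,
    Fintype.card_fin]
  · ring
  · intro a b hab
    exact hff (neg_injective hab)
  · rw [Finset.disjoint_left]
    intro x hx hx'
    rw [Finset.mem_image] at hx hx'
    obtain ⟨a, _, rfl⟩ := hx
    obtain ⟨b, _, hb⟩ := hx'
    exact hfn b a hb
  · rw [Finset.mem_union, Finset.mem_image, Finset.mem_image]
    rintro (⟨a, _, ha⟩ | ⟨a, _, ha⟩)
    · exact hf0 a ha
    · exact hf0 a (neg_eq_zero.1 ha)

omit [NeZero n] in
open Classical in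
theorem general_position (f : Fin d → ZMod n) (hf0 : ∀ a, f a ≠ 0) (hff : Function.Injective f)
    (hfn : ∀ a b, -f a ≠ f b)
    (h : ∀ m : ZMod n, m ≠ 0 → ∃ x ∈ freq f, ∃ y ∈ freq f, x ≠ y ∧ x - m ∉ freq f ∧
      y - m ∉ freq f) (m : ZMod n) (hm : m ≠ 0) :
    2 * (d + 1) + 1 ≤ (freq f ∪ (freq f).image (fun g => g - m)).card := by
  obtain ⟨x, hx, y, hy, hxy, hx', hy'⟩ := h m hm
  have hsub : insert (x - m) (insert (y - m) (freq f)) ⊆
      freq f ∪ (freq f).image (fun g => g - m) := by
    intro z hz
    rw [Finset.mem_insert, Finset.mem_insert] at hz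
    rw [Finset.mem_union]
    rcases hz with rfl | rfl | hz
    · right; exact Finset.mem_image_of_mem _ hx
    · right; exact Finset.mem_image_of_mem _ hy
    · left; exact hz
  have hcard : (insert (x - m) (insert (y - m) (freq f))).card = 2 * d + 1 + 1 + 1 := by
    rw [Finset.card_insert_of_notMem, Finset.card_insert_of_notMem hy', card_freq f hf0 hff hfn]
    rw [Finset.mem_insert]
    rintro (h1 | h1)
    · exact hxy (sub_left_injective h1)
    · exact hx' h1
  have := Finset.card_le_card hsub
  omega

end General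

/-- The arithmetic behind the choice of the frequencies. -/
theorem two_new (N k : ℕ) (hk : 3 ≤ k) (hN : k + 1 ≤ N) (r : ℕ) (hr1 : 1 ≤ r)
    (hr2 : r ≤ 2 * N) : ∃ x y s t : ℕ, x ≠ y ∧ x < 2 * N + 1 ∧ y < 2 * N + 1 ∧
      (x = 0 ∨ (N + 2 ≤ x + k ∧ x + 1 ≤ N + k)) ∧ (y = 0 ∨ (N + 2 ≤ y + k ∧ y + 1 ≤ N + k)) ∧
      (x + r = s ∨ x + r = s + (2 * N + 1)) ∧ (y + r = t ∨ y + r = t + (2 * N + 1)) ∧
      s < 2 * N + 1 ∧ t < 2 * N + 1 ∧ s ≠ 0 ∧ ¬(N + 2 ≤ s + k ∧ s + 1 ≤ N + k) ∧
      t ≠ 0 ∧ ¬(N + 2 ≤ t + k ∧ t + 1 ≤ N + k) := by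
  rcases le_or_gt r N with h | h
  · rcases eq_or_ne r 1 with h1 | h1
    · exact ⟨0, N + k - 1, 1, N + k, by omega, by omega, by omega, by omega, by omega, by omega,
        by omega, by omega, by omega, by omega, by omega, by omega, by omega⟩
    · rcases le_or_gt r (2 * k - 2) with h2 | h2
      · exact ⟨N + k - r, N + k + 1 - r, N + k, N + k + 1, by omega, by omega, by omega, by omega,
          by omega, by omega, by omega, by omega, by omega, by omega, by omega, by omega,
          by omega⟩
      · exact ⟨N + 2 - k, N + 3 - k, N + 2 - k + r, N + 3 - k + r, by omega, by omega, by omega,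
          by omega, by omega, by omega, by omega, by omega, by omega, by omega, by omega,
          by omega, by omega⟩
  · obtain ⟨r', hr'⟩ : ∃ r', r + r' = 2 * N + 1 := ⟨2 * N + 1 - r, by omega⟩
    rcases eq_or_ne r' 1 with h1 | h1
    · exact ⟨0, N + 2 - k, 2 * N, N + 1 - k, by omega, by omega, by omega, by omega, by omega,
        by omega, by omega, by omega, by omega, by omega, by omega, by omega, by omega⟩
    · rcases le_or_gt r' (2 * k - 2) with h2 | h2
      · exact ⟨N + 1 - k + r', N - k + r', N + 1 - k, N - k, by omega, by omega, by omega,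
          by omega, by omega, by omega, by omega, by omega, by omega, by omega, by omega,
          by omega, by omega⟩
      · exact ⟨N + k - 1, N + k - 2, N + k - 1 - r', N + k - 2 - r', by omega, by omega,
          by omega, by omega, by omega, by omega, by omega, by omega, by omega, by omega,
          by omega, by omega, by omega⟩

/-- Odd `n` and `k ≥ 3`. -/
theorem odd_case (k N : ℕ) (hk : 3 ≤ k) (hN : k + 1 ≤ N) :
    ∃ P : ZMod (2 * N + 1) → EuclideanSpace ℝ (Fin (2 * (k - 1) + 1)),
      Function.Injective P ∧ IsKEquilateral k P ∧ Spans P := by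
  classical
  have hne : NeZero (2 * N + 1) := ⟨by omega⟩
  set n := 2 * N + 1 with hn
  have hval : ∀ a : ℕ, a < n → ((a : ℕ) : ZMod n).val = a := fun a ha => ZMod.val_cast_of_lt ha
  have hcast : ∀ a : ℕ, ((a + n : ℕ) : ZMod n) = (a : ZMod n) := by intro a; simp
  set f : Fin (k - 1) → ZMod n := fun a => ((N - a.val : ℕ) : ZMod n) with hf
  have hfval : ∀ a, (f a).val = N - a.val := fun a => hval _ (by omega)
  have hf0 : ∀ a, f a ≠ 0 := by
    intro a h
    have h1 := hfval a
    rw [h, ZMod.val_zero] at h1
    have := a.isLt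
    omega
  have hff : Function.Injective f := by
    intro a b hab
    have h1 := hfval a
    rw [hab, hfval b] at h1
    have := a.isLt
    have := b.isLt
    exact Fin.ext (by omega)
  have hneg : ∀ a, -f a = ((N + 1 + a.val : ℕ) : ZMod n) := by
    intro a
    have ha := a.isLt
    rw [neg_eq_iff_add_eq_zero, hf, ← Nat.cast_add]
    have : N - a.val + (N + 1 + a.val) = 0 + n := by omega
    rw [this, hcast]
    simp
  have hfn : ∀ a b, -f a ≠ f b := by
    intro a b h
    have h1 := hfval b
    have ha := a.isLt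
    rw [← h, hneg, hval _ (by omega)] at h1
    omega
  -- membership in the set of frequencies
  have hmem : ∀ x : ℕ, x < n → (((x : ℕ) : ZMod n) ∈ freq f ↔
      (x = 0 ∨ (N + 2 ≤ x + k ∧ x + 1 ≤ N + k))) := by
    intro x hx
    rw [freq, Finset.mem_insert, Finset.mem_union, Finset.mem_image, Finset.mem_image]
    constructor
    · rintro (h | ⟨a, _, ha⟩ | ⟨a, _, ha⟩)
      · left
        have := congrArg ZMod.val h
        rw [hval x hx, ZMod.val_zero] at this
        exact this
      · right
        have h1 := hfval a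
        have := a.isLt
        rw [ha, hval x hx] at h1
        omega
      · right
        have := a.isLt
        rw [hneg] at ha
        have h1 := congrArg ZMod.val ha
        rw [hval x hx, hval _ (by omega)] at h1
        omega
    · rintro (h | h)
      · left; rw [h]; simp
      · right
        rcases le_or_gt x N with h1 | h1
        · left
          refine ⟨⟨N - x, by omega⟩, Finset.mem_univ _, ?_⟩
          rw [hf]
          simp only []
          congr 1
          omega
        · right
          refine ⟨⟨x - N - 1, by omega⟩, Finset.mem_univ _, ?_⟩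
          rw [hneg]
          simp only []
          congr 1
          omega
  have hG := general_position f hf0 hff hfn (by
    intro m hm
    have hm1 : m.val < n := ZMod.val_lt m
    have hm0 : m.val ≠ 0 := fun h => hm ((ZMod.val_eq_zero m).1 h)
    obtain ⟨x, y, s, t, hxy, hx, hy, hx1, hy1, hxs, hyt, hs, ht, hs0, hs1, ht0, ht1⟩ :=
      two_new N k hk hN (n - m.val) (by omega) (by omega)
    have hmm : m = -((n - m.val : ℕ) : ZMod n) := by
      rw [eq_neg_iff_add_eq_zero]
      nth_rewrite 1 [← ZMod.natCast_zmod_val m]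
      rw [← Nat.cast_add]
      have : m.val + (n - m.val) = 0 + n := by omega
      rw [this, hcast]
      simp
    have hstep : ∀ x s : ℕ, (x + (n - m.val) = s ∨ x + (n - m.val) = s + n) →
        (x : ZMod n) - m = (s : ZMod n) := by
      intro x s h
      nth_rewrite 1 [hmm]
      rw [sub_neg_eq_add, ← Nat.cast_add]
      rcases h with h | h
      · rw [h]
      · rw [h, hcast]
    refine ⟨(x : ZMod n), (hmem x hx).2 hx1, (y : ZMod n), (hmem y hy).2 hy1, ?_, ?_, ?_⟩
    · intro h
      have := congrArg ZMod.val h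
      rw [hval x hx, hval y hy] at this
      exact hxy this
    · rw [hstep x s hxs, hmem s hs]
      exact fun h => h.elim hs0 hs1
    · rw [hstep y t hyt, hmem t ht]
      exact fun h => h.elim ht0 ht1)
  have hG' : ∀ m : ZMod n, m ≠ 0 →
      2 * k + 1 ≤ (freq f ∪ (freq f).image (fun g => g - m)).card := by
    intro m hm
    have := hG m hm
    have h1 : k - 1 + 1 = k := by omega
    rw [h1] at this
    exact this
  have hone : (1 : ZMod n).val = 1 := by
    have h1 := hval 1 (by omega)
    rwa [Nat.cast_one] at h1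
  refine exists_perturbed f (1 : ZMod n) hf0 hff hfn ?_ ?_ ?_ hG' ?_
  · intro h
    have h1 := congrArg ZMod.val h
    rw [hone, ZMod.val_zero] at h1
    omega
  · intro a h
    have h1 := hfval a
    have := a.isLt
    rw [h, hone] at h1
    omega
  · intro a h
    have := a.isLt
    rw [hneg] at h
    have h1 := congrArg ZMod.val h
    rw [hone, hval _ (by omega)] at h1
    omega
  · intro i i' h
    have h1 := congrFun h ⟨0, by omega⟩
    have h2 : i * f ⟨0, by omega⟩ = i' * f ⟨0, by omega⟩ := chi_injective h1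
    have h3 : f ⟨0, by omega⟩ * 2 = -1 := by
      rw [hf]
      simp only [Nat.sub_zero]
      rw [eq_neg_iff_add_eq_zero]
      have h4 : ((N : ℕ) : ZMod n) * 2 + 1 = ((0 + n : ℕ) : ZMod n) := by
        rw [hn]; push_cast; ring
      rw [h4, hcast]
      simp
    have h4 : i * f ⟨0, by omega⟩ * 2 = i' * f ⟨0, by omega⟩ * 2 := by rw [h2]
    rw [mul_assoc, mul_assoc, h3] at h4
    linear_combination -h4

/-- Even `n`. -/
theorem even_case (k N : ℕ) (hk : 2 ≤ k) (hN : k + 1 ≤ N) :
    ∃ P : ZMod (2 * N) → EuclideanSpace ℝ (Fin (2 * (k - 1) + 1)),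
      Function.Injective P ∧ IsKEquilateral k P ∧ Spans P := by
  classical
  have hne : NeZero (2 * N) := ⟨by omega⟩
  set n := 2 * N with hn
  have hval : ∀ a : ℕ, a < n → ((a : ℕ) : ZMod n).val = a := fun a ha => ZMod.val_cast_of_lt ha
  have hzero : ((n : ℕ) : ZMod n) = 0 := by simp
  set f : Fin (k - 1) → ZMod n := fun a => ((a.val + 1 : ℕ) : ZMod n) with hf
  have hfval : ∀ a, (f a).val = a.val + 1 := fun a => hval _ (by have := a.isLt; omega)
  set u : ZMod n := ((N : ℕ) : ZMod n) with hu
  have hf0 : ∀ a, f a ≠ 0 := by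
    intro a h
    have h1 := hfval a
    rw [h, ZMod.val_zero] at h1
    omega
  have hff : Function.Injective f := by
    intro a b hab
    have h1 := hfval a
    rw [hab, hfval b] at h1
    exact Fin.ext (by omega)
  have hnat : ∀ a b : ℕ, a + b < n → 0 < a + b → -((a : ℕ) : ZMod n) ≠ ((b : ℕ) : ZMod n) := by
    intro a b hab h0 h
    rw [neg_eq_iff_add_eq_zero, ← Nat.cast_add] at h
    have := congrArg ZMod.val h
    rw [hval _ hab, ZMod.val_zero] at this
    omega
  have hfn : ∀ a b, -f a ≠ f b := fun a b => hnat _ _ (by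
    have := a.isLt
    have := b.isLt
    omega) (by omega)
  have hu0 : u ≠ 0 := by
    intro h
    have := congrArg ZMod.val h
    rw [hu, hval N (by omega), ZMod.val_zero] at this
    omega
  have huf : ∀ a, f a ≠ u := by
    intro a h
    have h1 := hfval a
    have := a.isLt
    rw [h, hu, hval N (by omega)] at h1
    omega
  have huf' : ∀ a, -f a ≠ u := fun a => hnat _ _ (by have := a.isLt; omega) (by omega)
  have hspan := base_span f u hf0 hff hfn hu0 huf huf'
  set Q : ZMod n → HSpace (k - 1) := fun i =>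
    emb (fun a => chi n (i * f a)) (chi n (i * u)).re with hQ
  have hfin : Module.finrank ℝ (vectorSpan ℝ (Set.range Q)) = 2 * (k - 1) + 1 := by
    rw [AffineSubspace.vectorSpan_eq_top_of_affineSpan_eq_top ℝ _ _ hspan, finrank_top,
      finrank_HSpace]
  obtain ⟨P, hPdist, hPspan⟩ := exists_spanning Q _ hfin
  -- the height is a real character
  have hreal : ∀ i : ZMod n, chi n (i * u) = 1 ∨ chi n (i * u) = -1 := by
    intro i
    have h1 : chi n (i * u) * chi n (i * u) = 1 := by
      rw [← AddChar.map_add_eq_mul, ← mul_add, hu, ← Nat.cast_add]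
      have : N + N = n := by omega
      rw [this, hzero, mul_zero, AddChar.map_zero_eq_one]
    exact mul_self_eq_one_iff.1 h1
  refine ⟨P, ?_, ?_, hPspan⟩
  · intro i j hij
    have h1 : dist (Q i) (Q j) = 0 := by rw [← hPdist, hij, dist_self]
    have h2 : Q i = Q j := dist_eq_zero.1 h1
    have h3 : chi n (i * f ⟨0, by omega⟩) = chi n (j * f ⟨0, by omega⟩) := by
      apply Complex.ext
      · have := congrArg (fun x : HSpace (k - 1) => x (some (⟨0, by omega⟩, 0))) h2
        exact this
      · have := congrArg (fun x : HSpace (k - 1) => x (some (⟨0, by omega⟩, 1))) h2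
        exact this
    have h4 := chi_injective h3
    have h5 : f ⟨0, by omega⟩ = 1 := by rw [hf]; simp
    rw [h5, mul_one, mul_one] at h4
    exact h4
  · intro j _ _
    refine ⟨√((1 - (chi n ((j : ZMod n) * u)).re) ^ 2 +
      ∑ a, ‖1 - chi n ((j : ZMod n) * f a)‖ ^ 2), fun i => ?_⟩
    rw [hPdist, eq_comm, Real.sqrt_eq_iff_mul_self_eq (by positivity) dist_nonneg, ← sq, hQ,
      dist_emb_sq]
    congr 1
    · have h1 : chi n ((i + (j : ZMod n)) * u) = chi n (i * u) * chi n ((j : ZMod n) * u) := by
        rw [add_mul, AddChar.map_add_eq_mul]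
      rw [h1]
      rcases hreal i with h2 | h2 <;> rw [h2] <;> simp
      ring
    · refine Finset.sum_congr rfl fun a _ => ?_
      have h1 : chi n (i * f a) - chi n ((i + (j : ZMod n)) * f a) =
          chi n (i * f a) * (1 - chi n ((j : ZMod n) * f a)) := by
        rw [add_mul, AddChar.map_add_eq_mul]; ring
      rw [h1, norm_mul, norm_chi, one_mul]

/-- **The first part of the conjecture is true.** For every `k ≥ 2` and every `n > 2k + 1` there
is a `k`-equilateral `n`-gon that spans `E^(2k-1)`. If `k ≥ 3` or `n` is even, it can be chosen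
with pairwise distinct vertices. -/
theorem result (k n : ℕ) (hk : 2 ≤ k) (hn : 2 * k + 1 < n) :
    ∃ P : ZMod n → EuclideanSpace ℝ (Fin (2 * k - 1)), IsKEquilateral k P ∧ Spans P ∧
      ((3 ≤ k ∨ Even n) → Function.Injective P) := by
  obtain ⟨l, rfl⟩ : ∃ l, k = l + 1 := ⟨k - 1, by omega⟩
  rcases Nat.even_or_odd' n with ⟨N, rfl | rfl⟩
  · obtain ⟨P, h1, h2, h3⟩ := even_case (l + 1) N hk (by omega)
    exact ⟨P, h2, h3, fun _ => h1⟩
  · by_cases hk3 : 3 ≤ l + 1
    · obtain ⟨P, h1, h2, h3⟩ := odd_case (l + 1) N hk3 (by omega)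
      exact ⟨P, h2, h3, fun _ => h1⟩
    · obtain rfl : l = 1 := by omega
      obtain ⟨P, h1, h2⟩ := (exists_polygon (n := 2 * N + 1) (m := 3) (K := 2)
        (q := (2 * N + 1) / 3) (by norm_num) (by omega) (by omega) (by omega) (by omega)).1
      refine ⟨P, h1, h2, ?_⟩
      rintro (h | ⟨m, hm⟩)
      · exact absurd h hk3
      · omega

end Pool.Agent.Results.MP_fb0157_co.FirstPartHolds
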