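import Pool.Agent.H50.KEquilateral

/-!
# The second part of the conjecture on `k`-equilateral polygons is false

We use `IsKEquilateral` and `Spans` from `Pool.Agent.H50.KEquilateral`.
-/

namespace Pool.Agent.Results.MP_fb0157_co.SecondPartFails

open Pool.Agent.H50.KEquilateral

/-- **Main theorem.** Let `k ≥ 2`, `q ≥ 2` and `q (k + 2) ≤ n`. If `n ≤ q · 2k`, then there is a
`(k+1)`-equilateral `n`-gon that spans `E^(2k-1)`. If `n ≤ q (2k - 2)`, then there is such an
`n`-gon with pairwise distinct vertices. -/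
theorem result (k q n : ℕ) (hk : 2 ≤ k) (hq : 2 ≤ q) (h1 : q * (k + 2) ≤ n) :
    (n ≤ q * (2 * k) → ∃ P : ZMod n → EuclideanSpace ℝ (Fin (2 * k - 1)),
        IsKEquilateral (k + 1) P ∧ Spans P) ∧
      (n ≤ q * (2 * k - 2) → ∃ P : ZMod n → EuclideanSpace ℝ (Fin (2 * k - 1)),
        Function.Injective P ∧ IsKEquilateral (k + 1) P ∧ Spans P) := by
  have hn : 2 * k + 4 ≤ n := by nlinarith
  constructor
  · intro h2
    obtain ⟨m, rfl⟩ : ∃ m, k = m + 1 := ⟨k - 1, by omega⟩
    have h := (exists_polygon (n := n) (m := 2 * m + 1) (K := m + 2) (q := q) (by omega) hq h1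
      (by rw [show 2 * m + 1 + 1 = 2 * (m + 1) by ring]; exact h2) (by omega)).1
    exact h
  · intro h2
    obtain ⟨m, rfl⟩ : ∃ m, k = m + 2 := ⟨k - 2, by omega⟩
    have h := (exists_polygon (n := n) (m := 2 * m + 1) (K := m + 3) (q := q) (by omega) hq h1
      (by rw [show 2 * m + 1 + 1 = 2 * (m + 2) - 2 by omega]; exact h2) (by omega)).2
    exact h

/-- The conjecture fails for every `k ≥ 5`, already for the odd number `n = 2k + 5`, and even if
polygons are required to have pairwise distinct vertices. -/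
theorem fails_of_five_le (k : ℕ) (hk : 5 ≤ k) :
    ∃ n : ℕ, Odd n ∧ 2 * k + 1 < n ∧ ∃ P : ZMod n → EuclideanSpace ℝ (Fin (2 * k - 1)),
      Function.Injective P ∧ IsKEquilateral (k + 1) P ∧ Spans P :=
  ⟨2 * k + 5, ⟨k + 2, by ring⟩, by omega,
    (result k 2 (2 * k + 5) (by omega) le_rfl (by omega)).2 (by omega)⟩

/-- For `k ≥ 9` the conjecture fails for every odd `n > 2k + 3`, even with distinct vertices. -/
theorem fails_of_nine_le (k n : ℕ) (hk : 9 ≤ k) (hn : 2 * k + 4 ≤ n) :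
    ∃ P : ZMod n → EuclideanSpace ℝ (Fin (2 * k - 1)),
      Function.Injective P ∧ IsKEquilateral (k + 1) P ∧ Spans P := by
  have h0 : 2 ≤ n / (k + 2) := by
    rw [Nat.le_div_iff_mul_le (by omega)]; omega
  have h1 : n / (k + 2) * (k + 2) ≤ n := Nat.div_mul_le_self _ _
  have h2 : n < (n / (k + 2) + 1) * (k + 2) := by
    have := Nat.lt_div_mul_add (a := n) (b := k + 2) (by omega)
    nlinarith
  refine (result k (n / (k + 2)) n (by omega) h0 h1).2 ?_
  generalize n / (k + 2) = q at *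
  obtain ⟨m, rfl⟩ : ∃ m, k = m + 2 := ⟨k - 2, by omega⟩
  have h3 : 2 * (m + 2) - 2 = 2 * m + 2 := by omega
  rw [h3]
  nlinarith

/-- The second part of the conjecture, as stated, is false. -/
theorem disproof : ¬ ∀ k n : ℕ, 2 ≤ k → Odd n → 2 * k + 1 < n →
    ¬ ∃ P : ZMod n → EuclideanSpace ℝ (Fin (2 * k - 1)), IsKEquilateral (k + 1) P ∧ Spans P := by
  intro h
  obtain ⟨n, hodd, hn, P, _, hP⟩ := fails_of_five_le 5 le_rfl
  exact h 5 n (by norm_num) hodd hn ⟨P, hP⟩

end Pool.Agent.Results.MP_fb0157_co.SecondPartFails
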